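import Pool.Agent.Hhelper79.PSL.Sign

set_option autoImplicit false
set_option linter.unusedSectionVars false
set_option linter.unusedVariables false
set_option linter.unusedSimpArgs false

namespace Pool.Agent.Hhelper79.PSL

open Finset

/-! ### The arithmetic of the sign changes -/

section arith

variable {l : ℕ} [NeZero l]

lemma val_add_one' (hl : 2 ≤ l) (x : ZMod l) : (x + 1).val = if x.val = l - 1 then 0 else x.val + 1 := by
  have : Fact (1 < l) := ⟨by omega⟩
  have h1 : (x + 1).val = (x.val + 1) % l := by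
    rw [ZMod.val_add, ZMod.val_one]
  have h2 := ZMod.val_lt x
  rw [h1]
  split_ifs with h
  · rw [h, Nat.sub_add_cancel (by omega), Nat.mod_self]
  · exact Nat.mod_eq_of_lt (by omega)

/-- class of `i` along the cycle -/
def kap (g : ℕ) (a : ZMod l) (i : ℕ) : ZMod l := a * ((i / g : ℕ) : ZMod l)

lemma kap_add_u (g u' : ℕ) (hg : 0 < g) (a : ZMod l) (ha : a * (u' : ZMod l) = 1) (i : ℕ) :
    kap g a (i + g * u') = kap g a i + 1 := by
  unfold kap
  rw [Nat.add_mul_div_left _ _ hg]
  push_cast
  rw [mul_add, ha]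

lemma kap_add_w (g : ℕ) (hg : 0 < g) (a : ZMod l) (i : ℕ) :
    kap g a (i + g * l) = kap g a i := by
  unfold kap
  rw [Nat.add_mul_div_left _ _ hg]
  push_cast
  simp

lemma kap_inj (g u' : ℕ) (hg : 0 < g) (a : ZMod l) (ha : a * (u' : ZMod l) = 1) {i j : ℕ}
    (h : kap g a i = kap g a j) (h1 : i % g = j % g) (h2 : i / (g * l) = j / (g * l)) : i = j := by
  unfold kap at h
  have hu : IsUnit a := IsUnit.of_mul_eq_one _ ha
  have h3 : ((i / g : ℕ) : ZMod l) = ((j / g : ℕ) : ZMod l) := hu.mul_left_cancel h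
  rw [ZMod.natCast_eq_natCast_iff] at h3
  have h4 : (i / g) % l = (j / g) % l := h3
  have h5 : (i / g) / l = (j / g) / l := by
    rw [Nat.div_div_eq_div_mul, Nat.div_div_eq_div_mul, h2]
  have h6 : i / g = j / g := by
    rw [← Nat.div_add_mod (i / g) l, ← Nat.div_add_mod (j / g) l, h4, h5]
  rw [← Nat.div_add_mod i g, ← Nat.div_add_mod j g, h1, h6]

end arith

variable {N : ℕ} [NeZero N]

lemma card_class_le (n g l : ℕ) [NeZero l] (u' : ℕ) (hg : 0 < g) (a : ZMod l)
    (ha : a * (u' : ZMod l) = 1) (j : ZMod l) (I : Finset (ZMod N))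
    (hI : ∀ i ∈ I, i.val < n ∧ kap g a i.val + 1 = j) :
    I.card ≤ g * (n / (g * l) + 1) := by
  have h1 : I.card ≤ (range g ×ˢ range (n / (g * l) + 1)).card := by
    apply card_le_card_of_injOn (fun i => (i.val % g, i.val / (g * l)))
    · intro i hi
      have := hI i hi
      simp only [coe_product, coe_range, Set.mem_prod, Set.mem_Iio]
      refine ⟨Nat.mod_lt _ hg, ?_⟩
      have := Nat.div_le_div_right (c := g * l) this.1.le
      omega
    · intro i hi i' hi' h
      have e1 := congrArg Prod.fst h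
      have e2 := congrArg Prod.snd h
      simp only at e1 e2
      have h3 := (hI i hi).2
      have h4 := (hI i' hi').2
      apply ZMod.val_injective
      apply kap_inj g u' hg a ha _ e1 e2
      have : kap g a i.val + 1 = kap g a i'.val + 1 := by rw [h3, h4]
      exact add_right_cancel this
  refine h1.trans ?_
  rw [card_product, card_range, card_range]

/-- The sign change with defects at the class `j`. -/
noncomputable def chj (g : ℕ) {l : ℕ} [NeZero l] (a j : ZMod l) (i : ZMod N) : Bool :=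
  decide (Even ((kap g a i.val - j).val))

lemma sg_mul_decide (p q : Prop) [Decidable p] [Decidable q] :
    sg (decide p) * sg (decide q) = if (p ↔ q) then 1 else -1 := by
  by_cases hp : p <;> by_cases hq : q <;> simp [sg, hp, hq]

lemma chj_u_even (g l u' : ℕ) [NeZero l] (hl : 2 ≤ l) (hleven : Even l) (hg : 0 < g) (a : ZMod l)
    (ha : a * (u' : ZMod l) = 1) (j : ZMod l) (i k : ZMod N) (hk : (i + k).val = i.val + g * u') :
    sg (chj g a j i) * sg (chj g a j (i + k)) = -1 := by
  unfold chj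
  rw [sg_mul_decide, if_neg]
  rw [hk, kap_add_u g u' hg a ha]
  have e : kap g a i.val + 1 - j = (kap g a i.val - j) + 1 := by ring
  rw [e, val_add_one' hl]
  split_ifs with h
  · rw [h]
    intro h2
    have h3 := h2.2 (by simp)
    obtain ⟨m, hm⟩ := hleven
    obtain ⟨m', hm'⟩ := h3
    omega
  · rw [Nat.even_add_one]
    tauto

lemma chj_u_odd (g l u' : ℕ) [NeZero l] (hl : 2 ≤ l) (hlodd : ¬ Even l) (hg : 0 < g) (a : ZMod l)
    (ha : a * (u' : ZMod l) = 1) (j : ZMod l) (i k : ZMod N) (hk : (i + k).val = i.val + g * u') :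
    sg (chj g a j i) * sg (chj g a j (i + k)) = if kap g a i.val + 1 = j then 1 else -1 := by
  unfold chj
  rw [sg_mul_decide]
  have hiff : (kap g a i.val + 1 = j) ↔ (kap g a i.val - j).val = l - 1 := by
    constructor
    · intro h
      have e : kap g a i.val - j = -1 := by rw [← h]; ring
      rw [e]
      have : (-1 : ZMod l).val = l - 1 := by
        obtain ⟨m, rfl⟩ : ∃ m, l = m + 1 := ⟨l - 1, by omega⟩
        rw [ZMod.val_neg_one]; rfl
      exact this
    · intro h
      have e : (kap g a i.val - j) + 1 = 0 := by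
        apply ZMod.val_injective
        rw [val_add_one' hl, if_pos h, ZMod.val_zero]
      have : kap g a i.val + 1 = j + ((kap g a i.val - j) + 1) := by ring
      rw [this, e, add_zero]
  rw [hk, kap_add_u g u' hg a ha]
  have e : kap g a i.val + 1 - j = (kap g a i.val - j) + 1 := by ring
  rw [e, val_add_one' hl]
  by_cases h : (kap g a i.val - j).val = l - 1
  · rw [if_pos h, if_pos (hiff.2 h), if_pos]
    rw [h]
    constructor
    · intro _; simp
    · intro _
      rw [Nat.not_even_iff_odd] at hlodd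
      obtain ⟨m, hm⟩ := hlodd
      exact ⟨m, by omega⟩
  · rw [if_neg h, if_neg (fun h2 => h (hiff.1 h2)), if_neg]
    rw [Nat.even_add_one]
    tauto

lemma chj_w (g l : ℕ) [NeZero l] (hg : 0 < g) (a : ZMod l)
    (j : ZMod l) (i k : ZMod N) (hk : (i + k).val = i.val + g * l) :
    sg (chj g a j i) * sg (chj g a j (i + k)) = 1 := by
  unfold chj
  rw [sg_mul_decide, if_pos]
  rw [hk, kap_add_w g hg a]

lemma edg_flip (k : ZMod N) (I : Finset (ZMod N)) (ω χ : ZMod N → Bool) :
    edg k I (fun i => xor (ω i) (χ i)) =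
      ∑ i ∈ I, (sg (χ i) * sg (χ (i + k))) * (sg (ω i) * sg (ω (i + k))) := by
  unfold edg
  apply sum_congr rfl
  intro i _
  rw [sg_xor, sg_xor]
  ring

/-- The correlation estimate. -/
theorem corr_bound (n : ℕ) (T : Finset (ZMod N)) (hN : 2 * n ≤ N) (hT : ∀ i ∈ T, i.val < n)
    (u w : ℕ) (hu : 0 < u) (huw : u < w) (hwn : w < n) (f f1 g : ℝ → ℝ) (κ : ℝ) (hκ : 0 ≤ κ)
    (hodd : ∀ z, f (-z) = - f z) (hf1 : ∀ z, |f1 z| ≤ 1)
    (hf : ∀ z h, |f z - f (z - h) - f1 z * h| ≤ κ * h ^ 2) :
    |(U (ZMod N)).E (fun ω => f (corr (xs T ω) (u : ZMod N)) * g (corr (xs T ω) (w : ZMod N)))| ≤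
      (2 * Real.sqrt n * ((Nat.gcd u w : ℝ) / w) + 8 * κ * (Nat.gcd u w * ((n : ℝ) / w + 1))) *
        Real.sqrt ((U (ZMod N)).E (fun ω => g (corr (xs T ω) (w : ZMod N)) ^ 2)) := by
  classical
  have hvu : ∀ (v : ℕ), v < n → ∀ i ∈ T, (i + (v : ZMod N)).val = i.val + v := by
    intro v hv i hi
    have h1 := hT i hi
    have h2 : ((v : ℕ) : ZMod N).val = v := by
      rw [ZMod.val_natCast]
      exact Nat.mod_eq_of_lt (by omega)
    rw [ZMod.val_add, h2]
    exact Nat.mod_eq_of_lt (by omega)
  set gg := Nat.gcd u w with hgg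
  have hgpos : 0 < gg := Nat.gcd_pos_of_pos_left _ hu
  obtain ⟨u', hu'⟩ := Nat.gcd_dvd_left u w
  obtain ⟨l, hl'⟩ := Nat.gcd_dvd_right u w
  rw [← hgg] at hu' hl'
  have hlpos : 0 < l := by
    rcases Nat.eq_zero_or_pos l with h | h
    · subst h; omega
    · exact h
  have hl2 : 2 ≤ l := by
    by_contra h
    have : l = 1 := by omega
    subst this
    have h3 : gg ∣ u := Nat.gcd_dvd_left u w
    have := Nat.le_of_dvd hu h3
    omega
  have : NeZero l := ⟨by omega⟩
  have hcop : Nat.Coprime u' l := by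
    have := Nat.coprime_div_gcd_div_gcd (m := u) (n := w) (by rw [← hgg]; exact hgpos)
    rw [← hgg] at this
    have e1 : u / gg = u' := Nat.div_eq_of_eq_mul_right hgpos hu'
    have e2 : w / gg = l := Nat.div_eq_of_eq_mul_right hgpos hl'
    rwa [e1, e2] at this
  obtain ⟨a, ha⟩ : ∃ a : ZMod l, a * (u' : ZMod l) = 1 := by
    have := ZMod.coe_mul_inv_eq_one u' hcop
    exact ⟨(u' : ZMod l)⁻¹, by rw [mul_comm]; exact this⟩
  set P := U (ZMod N) with hP
  set Iu := eset T (u : ZMod N) with hIu
  set Iw := eset T (w : ZMod N) with hIw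
  set cu : (ZMod N → Bool) → ℝ := edg (u : ZMod N) Iu with hcu
  set cw : (ZMod N → Bool) → ℝ := edg (w : ZMod N) Iw with hcw
  have hIuT : ∀ i ∈ Iu, i ∈ T := fun i hi => (mem_filter.1 hi).1
  have hIwT : ∀ i ∈ Iw, i ∈ T := fun i hi => (mem_filter.1 hi).1
  have hvu' : ∀ i ∈ Iu, (i + (u : ZMod N)).val = i.val + u := fun i hi =>
    hvu u (by omega) i (hIuT i hi)
  have hvw' : ∀ i ∈ Iw, (i + (w : ZMod N)).val = i.val + w := fun i hi =>
    hvu w hwn i (hIwT i hi)
  have hcorr : ∀ ω, corr (xs T ω) (u : ZMod N) = cu ω := fun ω => corr_xs T _ ω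
  have hcorrw : ∀ ω, corr (xs T ω) (w : ZMod N) = cw ω := fun ω => corr_xs T _ ω
  simp only [hcorr, hcorrw]
  set A := P.E (fun ω => f (cu ω) * g (cw ω)) with hA
  set B := Real.sqrt (P.E (fun ω => g (cw ω) ^ 2)) with hB
  have hB0 : 0 ≤ B := Real.sqrt_nonneg _
  have hBsq : P.E (fun ω => g (cw ω) ^ 2) = B ^ 2 := by
    rw [hB, Real.sq_sqrt]
    exact P.E_nonneg (fun ω => sq_nonneg _)
  have hRHS : 0 ≤ (2 * Real.sqrt n * ((gg : ℝ) / w) + 8 * κ * (gg * ((n : ℝ) / w + 1))) * B := by
    positivity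
  -- invariance of cw
  have hcwinv : ∀ (j : ZMod l) ω, cw (fun i => xor (ω i) (chj gg a j i)) = cw ω := by
    intro j ω
    rw [hcw, edg_flip]
    unfold edg
    apply sum_congr rfl
    intro i hi
    rw [chj_w gg l hgpos a j i _ (by rw [← hl']; exact hvw' i hi), one_mul]
  by_cases hev : Even l
  · -- no defect
    have h1 : ∀ (j : ZMod l) ω, cu (fun i => xor (ω i) (chj gg a j i)) = - cu ω := by
      intro j ω
      rw [hcu, edg_flip]
      unfold edg
      rw [← sum_neg_distrib]
      apply sum_congr rfl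
      intro i hi
      rw [chj_u_even gg l u' hl2 hev hgpos a ha j i _ (by rw [← hu']; exact hvu' i hi)]
      ring
    have h2 : A = -A := by
      have h3 := U_E_flip (ι := ZMod N) (chj gg a 0) (fun ω => f (cu ω) * g (cw ω))
      simp only [h1, hcwinv, hodd] at h3
      have h4 : P.E (fun ω => -f (cu ω) * g (cw ω)) = -A := by
        rw [hA, ← P.E_neg]
        congr 1
        ext ω
        ring
      rw [← h4]
      exact h3.symm
    have h3 : A = 0 := by linarith
    rw [h3, abs_zero]
    exact hRHS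
  · -- defects
    set D : ZMod l → (ZMod N → Bool) → ℝ := fun j ω =>
      edg (u : ZMod N) (Iu.filter (fun i => kap gg a i.val + 1 = j)) ω with hD
    have h1 : ∀ (j : ZMod l) ω, cu (fun i => xor (ω i) (chj gg a j i)) = - (cu ω - 2 * D j ω) := by
      intro j ω
      rw [hcu, edg_flip, hD]
      simp only
      unfold edg
      rw [sum_filter, mul_sum, ← sum_sub_distrib, ← sum_neg_distrib]
      apply sum_congr rfl
      intro i hi
      rw [chj_u_odd gg l u' hl2 hev hgpos a ha j i _ (by rw [← hu']; exact hvu' i hi)]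
      split_ifs <;> ring
    have h2 : ∀ j : ZMod l, 2 * A = P.E (fun ω => (f (cu ω) - f (cu ω - 2 * D j ω)) * g (cw ω)) := by
      intro j
      have h3 := U_E_flip (ι := ZMod N) (chj gg a j) (fun ω => f (cu ω) * g (cw ω))
      simp only [h1, hcwinv, hodd] at h3
      rw [← hP] at h3
      have h4 : ∀ ω, (f (cu ω) - f (cu ω - 2 * D j ω)) * g (cw ω) =
          f (cu ω) * g (cw ω) + (-f (cu ω - 2 * D j ω) * g (cw ω)) := by intro ω; ring
      simp only [h4]
      rw [P.E_add, h3]
      ring
    have hsumD : ∀ ω, ∑ j, D j ω = cu ω := by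
      intro ω
      rw [hD, hcu]
      simp only
      unfold edg
      exact sum_fiberwise Iu (fun i => kap gg a i.val + 1)
        (fun i => sg (ω i) * sg (ω (i + (u : ZMod N))))
    -- error terms
    set m : ℝ := gg * ((n : ℝ) / w + 1) with hm
    have hmpos : 0 < m := by positivity
    have hD4 : ∀ j, P.E (fun ω => D j ω ^ 4) ≤ 12 * m ^ 2 := by
      intro j
      apply fourth_of_mgf P (D j) m hmpos
      intro t
      apply mgf_edges_le (u : ZMod N) u hu t _ m
      · have h5 := card_class_le (N := N) n gg l u' hgpos a ha j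
          (Iu.filter (fun i => kap gg a i.val + 1 = j)) (by
            intro i hi
            rw [mem_filter] at hi
            exact ⟨hT i (hIuT i hi.1), hi.2⟩)
        rw [← hl'] at h5
        calc (((Iu.filter (fun i => kap gg a i.val + 1 = j)).card : ℕ) : ℝ) ≤
            ((gg * (n / w + 1) : ℕ) : ℝ) := by exact_mod_cast h5
          _ ≤ m := by
            push_cast
            rw [hm]
            have : ((n / w : ℕ) : ℝ) ≤ (n : ℝ) / w := Nat.cast_div_le
            gcongr
      · intro i hi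
        exact hvu' i (mem_filter.1 hi).1
    have hcu2 : P.E (fun ω => cu ω ^ 2) ≤ 4 * n := by
      have h5 : P.E (fun ω => cu ω ^ 4) ≤ 12 * (n : ℝ) ^ 2 := by
        apply fourth_of_mgf P cu n (by exact_mod_cast (by omega : 0 < n))
        intro t
        apply mgf_edges_le (u : ZMod N) u hu t _ n
        · have h6 : Iu.card ≤ (range n).card := by
            apply card_le_card_of_injOn ZMod.val
            · intro i hi
              simp only [coe_range, Set.mem_Iio]
              exact hT i (hIuT i hi)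
            · intro i _ i' _ h
              exact ZMod.val_injective _ h
          rw [card_range] at h6
          exact_mod_cast h6
        · exact hvu'
      have h6 := P.sq_E_le (fun ω => cu ω ^ 2)
      have h7 : P.E (fun ω => (cu ω ^ 2) ^ 2) = P.E (fun ω => cu ω ^ 4) := by
        congr 1; ext ω; ring
      rw [h7] at h6
      have h8 : 0 ≤ P.E (fun ω => cu ω ^ 2) := P.E_nonneg (fun ω => sq_nonneg _)
      have h9 : (0 : ℝ) ≤ n := Nat.cast_nonneg n
      nlinarith
    -- main sum
    have hsum : 2 * (l : ℝ) * A = 2 * P.E (fun ω => f1 (cu ω) * cu ω * g (cw ω)) +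
        ∑ j : ZMod l, P.E (fun ω => (f (cu ω) - f (cu ω - 2 * D j ω) - f1 (cu ω) * (2 * D j ω)) *
          g (cw ω)) := by
      have h5 : ∑ j : ZMod l, 2 * A = 2 * (l : ℝ) * A := by
        rw [sum_const, card_univ, ZMod.card, nsmul_eq_mul]; ring
      rw [← h5, sum_congr rfl (fun j _ => h2 j)]
      have h6 : 2 * P.E (fun ω => f1 (cu ω) * cu ω * g (cw ω)) =
          ∑ j : ZMod l, P.E (fun ω => f1 (cu ω) * (2 * D j ω) * g (cw ω)) := by
        rw [← P.E_sum, ← P.E_mul_left]
        congr 1
        ext ω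
        rw [← hsumD ω]
        rw [mul_sum, sum_mul, mul_sum]
        apply sum_congr rfl
        intro j _
        ring
      rw [h6, ← sum_add_distrib]
      apply sum_congr rfl
      intro j _
      rw [← P.E_add]
      congr 1
      ext ω
      ring
    have hfirst : |P.E (fun ω => f1 (cu ω) * cu ω * g (cw ω))| ≤ 2 * Real.sqrt n * B := by
      have h5 := P.E_mul_sq_le (fun ω => f1 (cu ω) * cu ω) (fun ω => g (cw ω))
      rw [hBsq] at h5
      have h6 : P.E (fun ω => (f1 (cu ω) * cu ω) ^ 2) ≤ 4 * n := by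
        refine le_trans (P.E_mono ?_) hcu2
        intro ω
        rw [mul_pow]
        have := hf1 (cu ω)
        have h7 : f1 (cu ω) ^ 2 ≤ 1 := by
          rw [← sq_abs]
          have := abs_nonneg (f1 (cu ω))
          nlinarith
        have := sq_nonneg (cu ω)
        nlinarith
      have h8 : |P.E (fun ω => f1 (cu ω) * cu ω * g (cw ω))| ^ 2 ≤ (2 * Real.sqrt n * B) ^ 2 := by
        rw [sq_abs]
        refine h5.trans ?_
        have : (2 * Real.sqrt n * B) ^ 2 = 4 * n * B ^ 2 := by
          rw [mul_pow, mul_pow, Real.sq_sqrt (Nat.cast_nonneg n)]; ring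
        rw [this]
        gcongr
      exact le_of_sq_le_sq h8 (by positivity)
    have hsecond : ∀ j : ZMod l, |P.E (fun ω => (f (cu ω) - f (cu ω - 2 * D j ω) -
        f1 (cu ω) * (2 * D j ω)) * g (cw ω))| ≤ 16 * κ * m * B := by
      intro j
      have h5 : |P.E (fun ω => (f (cu ω) - f (cu ω - 2 * D j ω) -
        f1 (cu ω) * (2 * D j ω)) * g (cw ω))| ≤ 4 * κ * P.E (fun ω => D j ω ^ 2 * |g (cw ω)|) := by
        refine (P.abs_E_le _).trans ?_
        rw [← P.E_mul_left]
        apply P.E_mono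
        intro ω
        rw [abs_mul]
        have h6 := hf (cu ω) (2 * D j ω)
        have h7 : κ * (2 * D j ω) ^ 2 = 4 * κ * D j ω ^ 2 := by ring
        rw [h7] at h6
        calc |f (cu ω) - f (cu ω - 2 * D j ω) - f1 (cu ω) * (2 * D j ω)| * |g (cw ω)| ≤
            (4 * κ * D j ω ^ 2) * |g (cw ω)| := by gcongr
          _ = _ := by ring
      have h6 := P.E_mul_sq_le (fun ω => D j ω ^ 2) (fun ω => |g (cw ω)|)
      have h7 : P.E (fun ω => |g (cw ω)| ^ 2) = B ^ 2 := by
        rw [← hBsq]; congr 1; ext ω; rw [sq_abs]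
      have h8 : P.E (fun ω => (D j ω ^ 2) ^ 2) ≤ 12 * m ^ 2 := by
        refine le_trans (le_of_eq ?_) (hD4 j)
        congr 1; ext ω; ring
      rw [h7] at h6
      have h9 : P.E (fun ω => D j ω ^ 2 * |g (cw ω)|) ≤ 4 * m * B := by
        have h10 : (P.E (fun ω => D j ω ^ 2 * |g (cw ω)|)) ^ 2 ≤ (4 * m * B) ^ 2 := by
          refine h6.trans ?_
          have : (4 * m * B) ^ 2 = 16 * m ^ 2 * B ^ 2 := by ring
          rw [this]
          have h11 : 0 ≤ B ^ 2 := sq_nonneg B
          have h12 : 0 ≤ m ^ 2 := sq_nonneg m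
          nlinarith
        exact le_of_sq_le_sq h10 (by positivity)
      calc _ ≤ 4 * κ * P.E (fun ω => D j ω ^ 2 * |g (cw ω)|) := h5
        _ ≤ 4 * κ * (4 * m * B) := by gcongr
        _ = _ := by ring
    have hlR : (0 : ℝ) < l := by exact_mod_cast hlpos
    have hfinal : 2 * (l : ℝ) * |A| ≤ 2 * (2 * Real.sqrt n * B) + l * (16 * κ * m * B) := by
      have h5 : |2 * (l : ℝ) * A| = 2 * (l : ℝ) * |A| := by
        rw [abs_mul, abs_of_pos (by positivity : (0 : ℝ) < 2 * l)]
      rw [← h5, hsum]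
      refine (abs_add_le _ _).trans ?_
      have h6 : |2 * P.E (fun ω => f1 (cu ω) * cu ω * g (cw ω))| ≤ 2 * (2 * Real.sqrt n * B) := by
        rw [abs_mul, abs_two]
        gcongr
      have h7 : |∑ j : ZMod l, P.E (fun ω => (f (cu ω) - f (cu ω - 2 * D j ω) -
          f1 (cu ω) * (2 * D j ω)) * g (cw ω))| ≤ l * (16 * κ * m * B) := by
        refine (abs_sum_le_sum_abs _ _).trans ?_
        refine (sum_le_sum (fun j _ => hsecond j)).trans ?_
        rw [sum_const, card_univ, ZMod.card, nsmul_eq_mul]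
      exact add_le_add h6 h7
    have hgw : (gg : ℝ) / w = 1 / l := by
      rw [hl']
      push_cast
      have : (0 : ℝ) < gg := by exact_mod_cast hgpos
      field_simp
    rw [hgw]
    have h5 : |A| ≤ (2 * (2 * Real.sqrt n * B) + l * (16 * κ * m * B)) / (2 * l) := by
      rw [le_div_iff₀ (by positivity)]
      linarith
    refine h5.trans (le_of_eq ?_)
    field_simp
    ring

end Pool.Agent.Hhelper79.PSL
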