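import Mathlib

set_option autoImplicit false
set_option linter.unusedSectionVars false

namespace Pool.Agent.Hhelper79.PSL

open Finset

variable {N : ℕ} [NeZero N]

/-- the standard character of `ZMod N` -/
noncomputable abbrev ch (N : ℕ) [NeZero N] : AddChar (ZMod N) ℂ := ZMod.stdAddChar

/-- Fourier transform of a real function on `ZMod N` -/
noncomputable def ft (z : ZMod N → ℝ) (θ : ZMod N) : ℂ := ∑ k, (z k : ℂ) * ch N (k * θ)

/-- convolution -/
noncomputable def conv (w z : ZMod N → ℝ) (p : ZMod N) : ℝ := ∑ k, w k * z (p - k)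

lemma ch_norm (a : ZMod N) : ‖ch N a‖ = 1 := by
  simp [ch]

lemma conj_ch (a : ZMod N) : (starRingEnd ℂ) (ch N a) = ch N (-a) := by
  rw [AddChar.map_neg_eq_conj]

lemma sum_ch (k : ZMod N) : ∑ θ, ch N (θ * k) = if k = 0 then (N : ℂ) else 0 := by
  have h := AddChar.sum_mulShift (R := ZMod N) (R' := ℂ) (ψ := ch N) k
    (ZMod.isPrimitive_stdAddChar N)
  rw [h]
  simp

lemma parseval (z : ZMod N → ℝ) : ∑ θ, ‖ft z θ‖ ^ 2 = N * ∑ k, z k ^ 2 := by
  have h : ∀ θ, ((‖ft z θ‖ ^ 2 : ℝ) : ℂ) = ∑ k, ∑ l, (z k : ℂ) * z l * ch N (θ * (k - l)) := by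
    intro θ
    rw [← Complex.normSq_eq_norm_sq, ← Complex.mul_conj]
    unfold ft
    rw [map_sum, sum_mul_sum]
    apply sum_congr rfl
    intro k _
    apply sum_congr rfl
    intro l _
    rw [map_mul (starRingEnd ℂ), Complex.conj_ofReal, conj_ch]
    have : ch N (θ * (k - l)) = ch N (k * θ) * ch N (-(l * θ)) := by
      rw [← AddChar.map_add_eq_mul]
      congr 1
      ring
    rw [this]
    ring
  have h2 : ((∑ θ, ‖ft z θ‖ ^ 2 : ℝ) : ℂ) = ((N * ∑ k, z k ^ 2 : ℝ) : ℂ) := by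
    rw [Complex.ofReal_sum, sum_congr rfl (fun θ _ => h θ), sum_comm]
    have h3 : ∀ k, ∑ θ, ∑ l, (z k : ℂ) * z l * ch N (θ * (k - l)) = (N : ℂ) * (z k) ^ 2 := by
      intro k
      rw [sum_comm]
      have h4 : ∀ l, ∑ θ, (z k : ℂ) * z l * ch N (θ * (k - l)) =
          if k = l then (N : ℂ) * (z k) ^ 2 else 0 := by
        intro l
        rw [← mul_sum, sum_ch]
        by_cases hkl : k = l
        · subst hkl
          simp
          ring
        · rw [if_neg (sub_ne_zero.2 hkl), if_neg hkl, mul_zero]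
      rw [sum_congr rfl (fun l _ => h4 l)]
      simp
    rw [sum_congr rfl (fun k _ => h3 k)]
    push_cast
    rw [mul_sum]
  exact_mod_cast h2

lemma ft_conv (w z : ZMod N → ℝ) (θ : ZMod N) : ft (conv w z) θ = ft w θ * ft z θ := by
  unfold ft conv
  rw [sum_mul_sum]
  have h1 : ∀ p : ZMod N, ((∑ k, w k * z (p - k) : ℝ) : ℂ) * ch N (p * θ) =
      ∑ k, ((w k : ℂ) * ch N (k * θ)) * ((z (p - k) : ℂ) * ch N ((p - k) * θ)) := by
    intro p
    push_cast
    rw [sum_mul]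
    apply sum_congr rfl
    intro k _
    have : ch N (p * θ) = ch N (k * θ) * ch N ((p - k) * θ) := by
      rw [← AddChar.map_add_eq_mul]
      congr 1
      ring
    rw [this]
    ring
  rw [sum_congr rfl (fun p _ => h1 p), sum_comm]
  apply sum_congr rfl
  intro k _
  exact Fintype.sum_equiv (Equiv.subRight k) _ _ (fun p => rfl)

theorem conv_bound (w z : ZMod N → ℝ) (X : ℝ) (h : ∀ θ, ‖ft w θ‖ ^ 2 ≤ X) :
    ∑ p, conv w z p ^ 2 ≤ X * ∑ k, z k ^ 2 := by
  have hN : (0 : ℝ) < N := by exact_mod_cast Nat.pos_of_ne_zero (NeZero.ne N)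
  have h1 := parseval (conv w z)
  have h2 := parseval z
  have h3 : ∑ θ, ‖ft (conv w z) θ‖ ^ 2 ≤ X * ∑ θ, ‖ft z θ‖ ^ 2 := by
    rw [mul_sum]
    apply sum_le_sum
    intro θ _
    rw [ft_conv, norm_mul, mul_pow]
    exact mul_le_mul_of_nonneg_right (h θ) (by positivity)
  rw [h1, h2] at h3
  have h4 : (N : ℝ) * ∑ p, conv w z p ^ 2 ≤ N * (X * ∑ k, z k ^ 2) := by linarith
  exact le_of_mul_le_mul_left h4 hN

theorem sum_sq_le_of_ft (w : ZMod N → ℝ) (X : ℝ) (h : ∀ θ, ‖ft w θ‖ ^ 2 ≤ X) :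
    ∑ k, w k ^ 2 ≤ X := by
  have hN : (0 : ℝ) < N := by exact_mod_cast Nat.pos_of_ne_zero (NeZero.ne N)
  have h1 := parseval w
  have h2 : ∑ θ, ‖ft w θ‖ ^ 2 ≤ ∑ θ : ZMod N, X := sum_le_sum (fun θ _ => h θ)
  rw [h1, sum_const, card_univ, ZMod.card, nsmul_eq_mul] at h2
  exact le_of_mul_le_mul_left h2 hN

end Pool.Agent.Hhelper79.PSL
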