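import Mathlib

set_option autoImplicit false
set_option linter.unusedSectionVars false
set_option linter.unusedVariables false
set_option linter.unusedSimpArgs false

namespace Pool.Agent.Hhelper79.PSL

open Finset

/-- Weights of a finite product probability space. -/
structure Wt (ι Ω : Type) [Fintype Ω] where
  μ : ι → Ω → ℝ
  nonneg : ∀ i a, 0 ≤ μ i a
  sum_one : ∀ i, ∑ a, μ i a = 1

namespace Wt

variable {ι Ω : Type} [Fintype ι] [DecidableEq ι] [Fintype Ω] (P : Wt ι Ω)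

/-- weight of a point -/
def w (ω : ι → Ω) : ℝ := ∏ i, P.μ i (ω i)

/-- expectation -/
def E (F : (ι → Ω) → ℝ) : ℝ := ∑ ω, P.w ω * F ω

lemma w_nonneg (ω : ι → Ω) : 0 ≤ P.w ω := prod_nonneg (fun i _ => P.nonneg i _)

lemma sum_w : ∑ ω, P.w ω = 1 := by
  have h := Fintype.prod_sum (κ := fun _ : ι => Ω) (f := fun i a => P.μ i a)
  unfold w
  rw [← h]
  simp [P.sum_one]

lemma E_const (c : ℝ) : P.E (fun _ => c) = c := by
  unfold E
  rw [← sum_mul, P.sum_w, one_mul]

lemma E_add (F G : (ι → Ω) → ℝ) : P.E (fun ω => F ω + G ω) = P.E F + P.E G := by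
  unfold E
  rw [← sum_add_distrib]
  exact sum_congr rfl (fun ω _ => by ring)

lemma E_sub (F G : (ι → Ω) → ℝ) : P.E (fun ω => F ω - G ω) = P.E F - P.E G := by
  unfold E
  rw [← sum_sub_distrib]
  exact sum_congr rfl (fun ω _ => by ring)

lemma E_mul_left (c : ℝ) (F : (ι → Ω) → ℝ) : P.E (fun ω => c * F ω) = c * P.E F := by
  unfold E
  rw [mul_sum]
  exact sum_congr rfl (fun ω _ => by ring)

lemma E_mul_right (c : ℝ) (F : (ι → Ω) → ℝ) : P.E (fun ω => F ω * c) = P.E F * c := by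
  unfold E
  rw [sum_mul]
  exact sum_congr rfl (fun ω _ => by ring)

lemma E_neg (F : (ι → Ω) → ℝ) : P.E (fun ω => - F ω) = - P.E F := by
  unfold E
  rw [← sum_neg_distrib]
  exact sum_congr rfl (fun ω _ => by ring)

lemma E_sum {κ : Type} (s : Finset κ) (F : κ → (ι → Ω) → ℝ) :
    P.E (fun ω => ∑ k ∈ s, F k ω) = ∑ k ∈ s, P.E (F k) := by
  unfold E
  rw [sum_comm]
  exact sum_congr rfl (fun ω _ => by rw [mul_sum])

lemma E_mono {F G : (ι → Ω) → ℝ} (h : ∀ ω, F ω ≤ G ω) : P.E F ≤ P.E G :=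
  sum_le_sum (fun ω _ => mul_le_mul_of_nonneg_left (h ω) (P.w_nonneg ω))

lemma E_nonneg {F : (ι → Ω) → ℝ} (h : ∀ ω, 0 ≤ F ω) : 0 ≤ P.E F :=
  sum_nonneg (fun ω _ => mul_nonneg (P.w_nonneg ω) (h ω))

lemma E_le_of_le {F : (ι → Ω) → ℝ} {c : ℝ} (h : ∀ ω, F ω ≤ c) : P.E F ≤ c := by
  have := P.E_mono h
  rwa [P.E_const] at this

lemma abs_E_le (F : (ι → Ω) → ℝ) : |P.E F| ≤ P.E (fun ω => |F ω|) := by
  rw [abs_le]
  constructor
  · rw [← P.E_neg]
    exact P.E_mono (fun ω => neg_abs_le _)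
  · exact P.E_mono (fun ω => le_abs_self _)

/-- Cauchy-Schwarz -/
lemma E_mul_sq_le (F G : (ι → Ω) → ℝ) :
    (P.E (fun ω => F ω * G ω)) ^ 2 ≤ P.E (fun ω => F ω ^ 2) * P.E (fun ω => G ω ^ 2) := by
  unfold E
  have h := sum_mul_sq_le_sq_mul_sq univ (fun ω => Real.sqrt (P.w ω) * F ω)
    (fun ω => Real.sqrt (P.w ω) * G ω)
  have e1 : ∀ ω, Real.sqrt (P.w ω) * F ω * (Real.sqrt (P.w ω) * G ω) = P.w ω * (F ω * G ω) := by
    intro ω
    have := Real.mul_self_sqrt (P.w_nonneg ω)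
    linear_combination (F ω * G ω) * this
  have e2 : ∀ (F : (ι → Ω) → ℝ) ω, (Real.sqrt (P.w ω) * F ω) ^ 2 = P.w ω * F ω ^ 2 := by
    intro F ω
    have := Real.mul_self_sqrt (P.w_nonneg ω)
    linear_combination (F ω ^ 2) * this
  simp only [e1, e2] at h
  exact h

lemma sq_E_le (F : (ι → Ω) → ℝ) : (P.E F) ^ 2 ≤ P.E (fun ω => F ω ^ 2) := by
  have h := P.E_mul_sq_le F (fun _ => 1)
  simp only [mul_one, one_pow] at h
  rwa [P.E_const, mul_one] at h

/-! ### Resampling one coordinate -/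

/-- average over coordinate `i` -/
def avg (i : ι) (F : (ι → Ω) → ℝ) (ω : ι → Ω) : ℝ :=
  ∑ a, P.μ i a * F (Function.update ω i a)

lemma w_update (ω : ι → Ω) (i : ι) (a : Ω) :
    P.w (Function.update ω i a) * P.μ i (ω i) = P.w ω * P.μ i a := by
  unfold w
  rw [← mul_prod_erase univ _ (mem_univ i), ← mul_prod_erase univ (fun j => P.μ j (ω j)) (mem_univ i)]
  have : ∏ x ∈ univ.erase i, P.μ x (Function.update ω i a x) = ∏ x ∈ univ.erase i, P.μ x (ω x) := by
    apply prod_congr rfl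
    intro x hx
    rw [Function.update_of_ne (ne_of_mem_erase hx)]
  rw [this, Function.update_self]
  ring

/-- exchangeability -/
lemma E_exch (i : ι) (H : (ι → Ω) → (ι → Ω) → ℝ) :
    P.E (fun ω => ∑ a, P.μ i a * H ω (Function.update ω i a)) =
    P.E (fun ω => ∑ a, P.μ i a * H (Function.update ω i a) ω) := by
  unfold E
  simp only [mul_sum]
  rw [← Fintype.sum_prod_type' (f := fun (ω : ι → Ω) (a : Ω) =>
      P.w ω * (P.μ i a * H ω (Function.update ω i a))),
    ← Fintype.sum_prod_type' (f := fun (ω : ι → Ω) (a : Ω) =>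
      P.w ω * (P.μ i a * H (Function.update ω i a) ω))]
  apply Finset.sum_nbij' (fun x : (ι → Ω) × Ω => (Function.update x.1 i x.2, x.1 i))
    (fun x : (ι → Ω) × Ω => (Function.update x.1 i x.2, x.1 i))
  · intro x _
    exact mem_univ _
  · intro x _
    exact mem_univ _
  · rintro ⟨ω, a⟩ _
    simp
  · rintro ⟨ω, a⟩ _
    simp
  · rintro ⟨ω, a⟩ _
    simp only [Function.update_self, Function.update_idem, Function.update_eq_self]
    rw [← mul_assoc, ← mul_assoc, P.w_update]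

lemma E_avg (i : ι) (F : (ι → Ω) → ℝ) : P.E (P.avg i F) = P.E F := by
  have h := P.E_exch i (fun _ ω' => F ω')
  unfold avg
  rw [h]
  congr 1
  ext ω
  rw [← sum_mul, P.sum_one, one_mul]

lemma avg_update (i : ι) (F : (ι → Ω) → ℝ) (ω : ι → Ω) (a : Ω) :
    P.avg i F (Function.update ω i a) = P.avg i F ω := by
  unfold avg
  simp

lemma avg_mul_avg (i : ι) (F G : (ι → Ω) → ℝ) (ω : ι → Ω) :
    P.avg i (fun ω => F ω * P.avg i G ω) ω = P.avg i F ω * P.avg i G ω := by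
  conv_lhs => unfold avg
  simp only
  have : ∀ a, P.μ i a * (F (Function.update ω i a) *
      ∑ b, P.μ i b * G (Function.update (Function.update ω i a) i b)) =
      (P.μ i a * F (Function.update ω i a)) * P.avg i G ω := by
    intro a
    have := P.avg_update i G ω a
    unfold avg at this ⊢
    rw [this]
    ring
  rw [sum_congr rfl (fun a _ => this a), ← sum_mul]
  rfl

lemma E_mul_avg (i : ι) (F : (ι → Ω) → ℝ) :
    P.E (fun ω => F ω * P.avg i F ω) = P.E (fun ω => P.avg i F ω ^ 2) := by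
  rw [← P.E_avg i (fun ω => F ω * P.avg i F ω)]
  congr 1
  ext ω
  rw [P.avg_mul_avg]
  ring

lemma E_sub_avg_sq (i : ι) (F : (ι → Ω) → ℝ) :
    P.E (fun ω => (F ω - P.avg i F ω) ^ 2) =
      P.E (fun ω => F ω ^ 2) - P.E (fun ω => P.avg i F ω ^ 2) := by
  have h : ∀ ω, (F ω - P.avg i F ω) ^ 2 =
      (F ω ^ 2 - (2 * (F ω * P.avg i F ω))) + P.avg i F ω ^ 2 := by
    intro ω; ring
  simp only [h]
  rw [P.E_add, P.E_sub, P.E_mul_left, P.E_mul_avg]
  ring

lemma E_avg_sq_le (i : ι) (F : (ι → Ω) → ℝ) :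
    P.E (fun ω => P.avg i F ω ^ 2) ≤ P.E (fun ω => F ω ^ 2) := by
  have h := P.E_sub_avg_sq i F
  have h2 : 0 ≤ P.E (fun ω => (F ω - P.avg i F ω) ^ 2) := P.E_nonneg (fun ω => sq_nonneg _)
  linarith

lemma avg_sub (i : ι) (F G : (ι → Ω) → ℝ) (ω : ι → Ω) :
    P.avg i (fun ω => F ω - G ω) ω = P.avg i F ω - P.avg i G ω := by
  unfold avg
  rw [← sum_sub_distrib]
  exact sum_congr rfl (fun a _ => by ring)

lemma avg_comm (i j : ι) (F : (ι → Ω) → ℝ) (ω : ι → Ω) :
    P.avg i (P.avg j F) ω = P.avg j (P.avg i F) ω := by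
  by_cases hij : i = j
  · rw [hij]
  · unfold avg
    simp only [mul_sum]
    rw [sum_comm]
    apply sum_congr rfl
    intro b _
    apply sum_congr rfl
    intro a _
    rw [Function.update_comm hij]
    ring

/-- iterated averages -/
def avgL : List ι → ((ι → Ω) → ℝ) → (ι → Ω) → ℝ
  | [], F => F
  | i :: l, F => P.avg i (avgL l F)

lemma avgL_sub (l : List ι) (F G : (ι → Ω) → ℝ) (ω : ι → Ω) :
    P.avgL l (fun ω => F ω - G ω) ω = P.avgL l F ω - P.avgL l G ω := by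
  induction l generalizing ω with
  | nil => rfl
  | cons i l ih =>
    simp only [avgL]
    rw [← P.avg_sub]
    unfold avg
    exact sum_congr rfl (fun a _ => by rw [ih])

lemma avgL_avg (l : List ι) (i : ι) (F : (ι → Ω) → ℝ) (ω : ι → Ω) :
    P.avgL l (P.avg i F) ω = P.avg i (P.avgL l F) ω := by
  induction l generalizing ω with
  | nil => rfl
  | cons j l ih =>
    simp only [avgL]
    rw [P.avg_comm i j]
    unfold avg at ih ⊢
    exact sum_congr rfl (fun a _ => by rw [ih])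

lemma E_avgL_sq_le (l : List ι) (F : (ι → Ω) → ℝ) :
    P.E (fun ω => P.avgL l F ω ^ 2) ≤ P.E (fun ω => F ω ^ 2) := by
  induction l with
  | nil => exact le_refl _
  | cons i l ih => exact (P.E_avg_sq_le i _).trans ih

lemma E_avgL (l : List ι) (F : (ι → Ω) → ℝ) : P.E (P.avgL l F) = P.E F := by
  induction l with
  | nil => rfl
  | cons i l ih =>
    simp only [avgL]
    rw [P.E_avg, ih]

lemma avgL_update (l : List ι) (F : (ι → Ω) → ℝ) (i : ι) (hi : i ∈ l) (ω : ι → Ω) (a : Ω) :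
    P.avgL l F (Function.update ω i a) = P.avgL l F ω := by
  induction l generalizing ω with
  | nil => simp at hi
  | cons j l ih =>
    simp only [avgL]
    by_cases hij : i = j
    · subst hij
      exact P.avg_update i _ ω a
    · have hi' : i ∈ l := by
        rcases List.mem_cons.1 hi with h | h
        · exact absurd h hij
        · exact h
      unfold avg
      apply sum_congr rfl
      intro b _
      rw [Function.update_comm hij, ih hi']

lemma var_avgL_le (l : List ι) (F : (ι → Ω) → ℝ) :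
    P.E (fun ω => F ω ^ 2) - P.E (fun ω => P.avgL l F ω ^ 2) ≤
      (l.map (fun i => P.E (fun ω => (F ω - P.avg i F ω) ^ 2))).sum := by
  induction l with
  | nil => simp [avgL]
  | cons i l ih =>
    simp only [List.map_cons, List.sum_cons, avgL]
    have h1 := P.E_sub_avg_sq i (P.avgL l F)
    have h2 : P.E (fun ω => (P.avgL l F ω - P.avg i (P.avgL l F) ω) ^ 2) ≤
        P.E (fun ω => (F ω - P.avg i F ω) ^ 2) := by
      have h3 := P.E_avgL_sq_le l (fun ω => F ω - P.avg i F ω)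
      refine le_trans (le_of_eq ?_) h3
      congr 1
      ext ω
      rw [P.avgL_sub, P.avgL_avg]
    linarith

lemma const_of_update {H : (ι → Ω) → ℝ}
    (h : ∀ i ω a, H (Function.update ω i a) = H ω) (ω ω' : ι → Ω) : H ω = H ω' := by
  have key : ∀ s : Finset ι, H (s.piecewise ω' ω) = H ω := by
    intro s
    induction s using Finset.induction_on with
    | empty => simp
    | insert j s hj ih =>
      rw [Finset.piecewise_insert, h, ih]
  have := key univ
  rw [Finset.piecewise_univ] at this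
  exact this.symm

/-- the variance functional `V` -/
def V (F : (ι → Ω) → ℝ) (ω : ι → Ω) : ℝ :=
  ∑ i, ∑ a, P.μ i a * (F ω - F (Function.update ω i a)) ^ 2

lemma V_nonneg (F : (ι → Ω) → ℝ) (ω : ι → Ω) : 0 ≤ P.V F ω :=
  sum_nonneg (fun i _ => sum_nonneg (fun a _ => mul_nonneg (P.nonneg i a) (sq_nonneg _)))

lemma E_diff_sq (i : ι) (F : (ι → Ω) → ℝ) :
    P.E (fun ω => ∑ a, P.μ i a * (F ω - F (Function.update ω i a)) ^ 2) =
      2 * P.E (fun ω => (F ω - P.avg i F ω) ^ 2) := by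
  have h : ∀ ω, ∑ a, P.μ i a * (F ω - F (Function.update ω i a)) ^ 2 =
      (F ω ^ 2 - 2 * (F ω * P.avg i F ω)) + P.avg i (fun ω => F ω ^ 2) ω := by
    intro ω
    unfold avg
    have e : ∀ a, P.μ i a * (F ω - F (Function.update ω i a)) ^ 2 =
        P.μ i a * F ω ^ 2 - 2 * F ω * (P.μ i a * F (Function.update ω i a)) +
          P.μ i a * F (Function.update ω i a) ^ 2 := by
      intro a; ring
    rw [sum_congr rfl (fun a _ => e a), sum_add_distrib, sum_sub_distrib, ← sum_mul, P.sum_one,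
      ← mul_sum]
    ring
  simp only [h]
  rw [P.E_add, P.E_sub, P.E_mul_left, P.E_mul_avg, P.E_avg, P.E_sub_avg_sq]
  ring

/-- Efron-Stein -/
theorem efron_stein (F : (ι → Ω) → ℝ) :
    P.E (fun ω => F ω ^ 2) - (P.E F) ^ 2 ≤ (1 / 2) * P.E (P.V F) := by
  have h1 := P.var_avgL_le univ.toList F
  have h2 : ∀ ω, P.avgL univ.toList F ω = P.E F := by
    intro ω
    have h3 : ∀ ω', P.avgL univ.toList F ω' = P.avgL univ.toList F ω := by
      intro ω'
      apply const_of_update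
      intro i ω a
      exact P.avgL_update _ F i (by simp) ω a
    have h4 := P.E_avgL univ.toList F
    rw [← h4]
    have : P.avgL univ.toList F = fun _ => P.avgL univ.toList F ω := by
      ext ω'; exact h3 ω'
    conv_rhs => rw [this]
    rw [P.E_const]
  simp only [h2] at h1
  rw [P.E_const] at h1
  refine h1.trans (le_of_eq ?_)
  have h5 : P.E (P.V F) = ∑ i, 2 * P.E (fun ω => (F ω - P.avg i F ω) ^ 2) := by
    unfold V
    rw [P.E_sum]
    exact sum_congr rfl (fun i _ => P.E_diff_sq i F)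
  rw [h5, ← mul_sum, ← Finset.sum_map_toList]
  ring

/-! ### The moment inequality -/

lemma abs_pow_sub_le (a b : ℝ) (n : ℕ) :
    (a ^ n - b ^ n) ^ 2 ≤ (n : ℝ) ^ 2 * ((a - b) ^ 2 * (a ^ (2 * n - 2) + b ^ (2 * n - 2))) := by
  rcases Nat.eq_zero_or_pos n with hn | hn
  · subst hn; simp
  have key : ∀ a b : ℝ, |b| ≤ |a| →
      (a ^ n - b ^ n) ^ 2 ≤ (n : ℝ) ^ 2 * ((a - b) ^ 2 * (a ^ (2 * n - 2) + b ^ (2 * n - 2))) := by
    intro a b hab
    have h1 : |a ^ n - b ^ n| ≤ n * |a - b| * |a| ^ (n - 1) := by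
      have h2 := Commute.mul_geom_sum₂ (Commute.all a b) n
      rw [← h2, abs_mul]
      have h3 : |∑ i ∈ range n, a ^ i * b ^ (n - 1 - i)| ≤ n * |a| ^ (n - 1) := by
        refine (abs_sum_le_sum_abs _ _).trans ?_
        have : ∀ i ∈ range n, |a ^ i * b ^ (n - 1 - i)| ≤ |a| ^ (n - 1) := by
          intro i hi
          rw [mem_range] at hi
          rw [abs_mul, abs_pow, abs_pow]
          calc |a| ^ i * |b| ^ (n - 1 - i) ≤ |a| ^ i * |a| ^ (n - 1 - i) := by gcongr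
            _ = |a| ^ (n - 1) := by rw [← pow_add]; congr 1; omega
        refine (sum_le_sum this).trans ?_
        rw [sum_const, card_range, nsmul_eq_mul]
      calc |a - b| * |∑ i ∈ range n, a ^ i * b ^ (n - 1 - i)| ≤ |a - b| * (n * |a| ^ (n - 1)) := by
            gcongr
        _ = n * |a - b| * |a| ^ (n - 1) := by ring
    have h4 : (a ^ n - b ^ n) ^ 2 ≤ (n * |a - b| * |a| ^ (n - 1)) ^ 2 := by
      rw [← sq_abs (a ^ n - b ^ n)]
      gcongr
    refine h4.trans ?_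
    have h5 : (n * |a - b| * |a| ^ (n - 1)) ^ 2 = (n : ℝ) ^ 2 * ((a - b) ^ 2 * a ^ (2 * n - 2)) := by
      have : |a| ^ (n - 1) * |a| ^ (n - 1) = a ^ (2 * n - 2) := by
        rw [← pow_add, show n - 1 + (n - 1) = 2 * (n - 1) by ring, show 2 * n - 2 = 2 * (n - 1) by omega,
          pow_mul, sq_abs, ← pow_mul]
      calc (n * |a - b| * |a| ^ (n - 1)) ^ 2 = (n : ℝ) ^ 2 * (|a - b| ^ 2 * (|a| ^ (n - 1) * |a| ^ (n - 1))) := by
            ring
        _ = _ := by rw [this, sq_abs]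
    rw [h5]
    have h6 : 0 ≤ b ^ (2 * n - 2) := by
      rw [show 2 * n - 2 = 2 * (n - 1) by omega, pow_mul]; positivity
    have h7 : a ^ (2 * n - 2) ≤ a ^ (2 * n - 2) + b ^ (2 * n - 2) := by linarith
    gcongr
  rcases le_total (|b|) (|a|) with h | h
  · exact key a b h
  · have := key b a h
    have e1 : (b ^ n - a ^ n) ^ 2 = (a ^ n - b ^ n) ^ 2 := by ring
    have e2 : (b - a) ^ 2 * (b ^ (2 * n - 2) + a ^ (2 * n - 2)) =
        (a - b) ^ 2 * (a ^ (2 * n - 2) + b ^ (2 * n - 2)) := by ring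
    rw [e1, e2] at this
    exact this

lemma young (a b l : ℝ) (ha : 0 ≤ a) (hb : 0 ≤ b) (hl : 0 < l) (q : ℕ) :
    a ^ q * b ≤ l * a ^ (q + 1) + (1 / l) ^ q * b ^ (q + 1) := by
  rcases le_total b (l * a) with h | h
  · have h1 : a ^ q * b ≤ a ^ q * (l * a) := by gcongr
    have h2 : 0 ≤ (1 / l) ^ q * b ^ (q + 1) := by positivity
    calc a ^ q * b ≤ a ^ q * (l * a) := h1
      _ = l * a ^ (q + 1) := by ring
      _ ≤ _ := by linarith
  · have h1 : a ≤ (1 / l) * b := by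
      rw [one_div, inv_mul_eq_div, le_div_iff₀ hl]
      linarith
    have h2 : a ^ q ≤ ((1 / l) * b) ^ q := by gcongr
    have h3 : 0 ≤ l * a ^ (q + 1) := by positivity
    calc a ^ q * b ≤ ((1 / l) * b) ^ q * b := by gcongr
      _ = (1 / l) ^ q * b ^ (q + 1) := by ring
      _ ≤ _ := by linarith

lemma E_V_pow_step (F : (ι → Ω) → ℝ) (n : ℕ) (hn : 0 < n) :
    P.E (P.V (fun ω => F ω ^ n)) ≤ 2 * (n : ℝ) ^ 2 * P.E (fun ω => F ω ^ (2 * n - 2) * P.V F ω) := by
  have h1 : P.E (P.V (fun ω => F ω ^ n)) ≤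
      P.E (fun ω => ∑ i, ∑ a, P.μ i a * ((n : ℝ) ^ 2 * ((F ω - F (Function.update ω i a)) ^ 2 *
        (F ω ^ (2 * n - 2) + F (Function.update ω i a) ^ (2 * n - 2))))) := by
    apply P.E_mono
    intro ω
    unfold V
    apply sum_le_sum
    intro i _
    apply sum_le_sum
    intro a _
    exact mul_le_mul_of_nonneg_left (abs_pow_sub_le _ _ _) (P.nonneg i a)
  refine h1.trans (le_of_eq ?_)
  rw [P.E_sum]
  have h2 : ∀ i, P.E (fun ω => ∑ a, P.μ i a * ((n : ℝ) ^ 2 * ((F ω - F (Function.update ω i a)) ^ 2 *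
        (F ω ^ (2 * n - 2) + F (Function.update ω i a) ^ (2 * n - 2))))) =
      2 * (n : ℝ) ^ 2 * P.E (fun ω => F ω ^ (2 * n - 2) *
        ∑ a, P.μ i a * (F ω - F (Function.update ω i a)) ^ 2) := by
    intro i
    have e := P.E_exch i (fun ω ω' => (F ω - F ω') ^ 2 * F ω ^ (2 * n - 2))
    have e1 : ∀ ω, ∑ a, P.μ i a * ((n : ℝ) ^ 2 * ((F ω - F (Function.update ω i a)) ^ 2 *
        (F ω ^ (2 * n - 2) + F (Function.update ω i a) ^ (2 * n - 2)))) =
        (n : ℝ) ^ 2 * (∑ a, P.μ i a * ((F ω - F (Function.update ω i a)) ^ 2 * F ω ^ (2 * n - 2)) +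
        ∑ a, P.μ i a * ((F (Function.update ω i a) - F ω) ^ 2 *
          F (Function.update ω i a) ^ (2 * n - 2))) := by
      intro ω
      rw [← sum_add_distrib, mul_sum]
      apply sum_congr rfl
      intro a _
      ring
    simp only [e1]
    rw [P.E_mul_left, P.E_add, ← e]
    have e2 : P.E (fun ω => ∑ a, P.μ i a * ((F ω - F (Function.update ω i a)) ^ 2 * F ω ^ (2 * n - 2)))
        = P.E (fun ω => F ω ^ (2 * n - 2) *
        ∑ a, P.μ i a * (F ω - F (Function.update ω i a)) ^ 2) := by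
      congr 1
      ext ω
      rw [mul_sum]
      exact sum_congr rfl (fun a _ => by ring)
    rw [e2]
    ring
  rw [sum_congr rfl (fun i _ => h2 i), ← mul_sum, ← P.E_sum]
  congr 2
  ext ω
  unfold V
  rw [mul_sum]

lemma V_sub_const (F : (ι → Ω) → ℝ) (c : ℝ) : P.V (fun ω => F ω - c) = P.V F := by
  ext ω
  unfold V
  simp

/-- The moment inequality. -/
theorem moment (F : (ι → Ω) → ℝ) (k : ℕ) :
    P.E (fun ω => (F ω - P.E F) ^ (2 * 2 ^ k)) ≤
      (8 * 4 ^ k) ^ (2 ^ k) * P.E (fun ω => P.V F ω ^ (2 ^ k)) := by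
  induction k with
  | zero =>
    have h1 := P.efron_stein F
    have h2 : P.E (fun ω => (F ω - P.E F) ^ 2) = P.E (fun ω => F ω ^ 2) - (P.E F) ^ 2 := by
      have : ∀ ω, (F ω - P.E F) ^ 2 = (F ω ^ 2 - (2 * P.E F) * F ω) + (P.E F) ^ 2 := by
        intro ω; ring
      simp only [this]
      rw [P.E_add, P.E_sub, P.E_mul_left, P.E_const]
      ring
    have h3 : 0 ≤ P.E (P.V F) := P.E_nonneg (P.V_nonneg F)
    simp only [pow_zero, mul_one, pow_one]
    rw [h2]
    have h4 : P.E (fun ω => P.V F ω) = P.E (P.V F) := rfl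
    rw [h4]
    linarith
  | succ k ih =>
    set f : (ι → Ω) → ℝ := fun ω => F ω - P.E F with hf
    set q : ℕ := 2 * 2 ^ k with hq
    have hq' : 2 ^ (k + 1) = q := by rw [hq]; ring
    rw [hq']
    have hqpos : 0 < q := by positivity
    have hqR : (q : ℝ) ^ 2 = 4 * 4 ^ k := by
      rw [hq]; push_cast; rw [mul_pow, ← pow_mul, mul_comm k 2, pow_mul]; norm_num
    have hVf : P.V f = P.V F := P.V_sub_const F _
    -- Efron-Stein for f^q
    have h1 := P.efron_stein (fun ω => f ω ^ q)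
    have h2 := P.E_V_pow_step f q hqpos
    rw [hVf] at h2
    -- first term
    have h3 : (P.E (fun ω => f ω ^ q)) ^ 2 ≤ (8 * 4 ^ k) ^ q * P.E (fun ω => P.V F ω ^ q) := by
      have h0 : 0 ≤ P.E (fun ω => f ω ^ q) := by
        apply P.E_nonneg
        intro ω
        rw [hq, pow_mul]
        positivity
      have h4 : (P.E (fun ω => f ω ^ q)) ^ 2 ≤
          ((8 * 4 ^ k) ^ (2 ^ k) * P.E (fun ω => P.V F ω ^ (2 ^ k))) ^ 2 := by
        gcongr
      refine h4.trans ?_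
      rw [mul_pow, ← pow_mul, mul_comm (2 ^ k) 2, ← hq]
      apply mul_le_mul_of_nonneg_left _ (by positivity)
      refine (P.sq_E_le _).trans (le_of_eq ?_)
      congr 1
      ext ω
      rw [← pow_mul, mul_comm (2 ^ k) 2, ← hq]
    -- Young
    have h5 : P.E (fun ω => f ω ^ (2 * q - 2) * P.V F ω) ≤
        (1 / (2 * (q : ℝ) ^ 2)) * P.E (fun ω => f ω ^ (2 * q)) +
        (2 * (q : ℝ) ^ 2) ^ (q - 1) * P.E (fun ω => P.V F ω ^ q) := by
      rw [← P.E_mul_left, ← P.E_mul_left, ← P.E_add]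
      apply P.E_mono
      intro ω
      have hl : (0 : ℝ) < 1 / (2 * (q : ℝ) ^ 2) := by
        have : (0 : ℝ) < q := by exact_mod_cast hqpos
        positivity
      have := young (f ω ^ 2) (P.V F ω) (1 / (2 * (q : ℝ) ^ 2)) (sq_nonneg _) (P.V_nonneg F ω) hl (q - 1)
      rw [one_div_one_div, Nat.sub_add_cancel hqpos, ← pow_mul, ← pow_mul] at this
      rw [show 2 * q - 2 = 2 * (q - 1) by omega]
      exact this
    have h6 : P.E (fun ω => (f ω ^ q) ^ 2) = P.E (fun ω => f ω ^ (2 * q)) := by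
      congr 1
      ext ω
      rw [← pow_mul, mul_comm]
    rw [h6] at h1
    set M := P.E (fun ω => f ω ^ (2 * q)) with hM
    set W := P.E (fun ω => P.V F ω ^ q) with hW
    have hW0 : 0 ≤ W := P.E_nonneg (fun ω => pow_nonneg (P.V_nonneg F ω) _)
    have hqR0 : (0 : ℝ) < (q : ℝ) ^ 2 := by
      have : (0 : ℝ) < q := by exact_mod_cast hqpos
      positivity
    have h7 : (q : ℝ) ^ 2 * ((1 / (2 * (q : ℝ) ^ 2)) * M + (2 * (q : ℝ) ^ 2) ^ (q - 1) * W) =
        M / 2 + (2 * (q : ℝ) ^ 2) ^ q * W / 2 := by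
      have e : (2 * (q : ℝ) ^ 2) ^ q = (2 * (q : ℝ) ^ 2) ^ (q - 1) * (2 * (q : ℝ) ^ 2) := by
        rw [← pow_succ, Nat.sub_add_cancel hqpos]
      rw [e]
      field_simp
    have h8 : M ≤ (8 * 4 ^ k) ^ q * W + (M / 2 + (2 * (q : ℝ) ^ 2) ^ q * W / 2) := by
      rw [← h7]
      have h9 : (1 / 2) * P.E (P.V (fun ω => f ω ^ q)) ≤
          (q : ℝ) ^ 2 * ((1 / (2 * (q : ℝ) ^ 2)) * M + (2 * (q : ℝ) ^ 2) ^ (q - 1) * W) := by
        calc (1 / 2) * P.E (P.V (fun ω => f ω ^ q)) ≤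
            (1 / 2) * (2 * (q : ℝ) ^ 2 * P.E (fun ω => f ω ^ (2 * q - 2) * P.V F ω)) := by linarith
          _ = (q : ℝ) ^ 2 * P.E (fun ω => f ω ^ (2 * q - 2) * P.V F ω) := by ring
          _ ≤ _ := by
            apply mul_le_mul_of_nonneg_left h5 hqR0.le
      linarith
    have h10 : (8 * (4 : ℝ) ^ k) = 2 * (q : ℝ) ^ 2 := by rw [hqR]; ring
    rw [h10] at h8
    have h11 : M ≤ 3 * (2 * (q : ℝ) ^ 2) ^ q * W := by linarith
    have h12 : (8 * (4 : ℝ) ^ (k + 1)) = 4 * (2 * (q : ℝ) ^ 2) := by rw [hqR]; ring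
    rw [h12, mul_pow]
    refine h11.trans ?_
    apply mul_le_mul_of_nonneg_right _ hW0
    apply mul_le_mul_of_nonneg_right _ (by positivity)
    calc (3 : ℝ) ≤ 4 ^ 1 := by norm_num
      _ ≤ 4 ^ q := pow_le_pow_right₀ (by norm_num) hqpos

/-! ### Probabilities -/

open Classical in
/-- probability of an event -/
noncomputable def Pr (A : (ι → Ω) → Prop) : ℝ := P.E (fun ω => if A ω then 1 else 0)

lemma Pr_nonneg (A : (ι → Ω) → Prop) : 0 ≤ P.Pr A := by
  classical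
  unfold Pr
  apply P.E_nonneg
  intro ω
  split_ifs <;> norm_num

lemma Pr_mono {A B : (ι → Ω) → Prop} (h : ∀ ω, A ω → B ω) : P.Pr A ≤ P.Pr B := by
  classical
  unfold Pr
  apply P.E_mono
  intro ω
  split_ifs with h1 h2 h2
  · exact le_refl _
  · exact absurd (h ω h1) h2
  · norm_num
  · exact le_refl _

lemma Pr_le_one (A : (ι → Ω) → Prop) : P.Pr A ≤ 1 := by
  classical
  unfold Pr
  apply P.E_le_of_le
  intro ω
  split_ifs <;> norm_num

lemma Pr_or (A B : (ι → Ω) → Prop) : P.Pr (fun ω => A ω ∨ B ω) ≤ P.Pr A + P.Pr B := by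
  classical
  unfold Pr
  rw [← P.E_add]
  apply P.E_mono
  intro ω
  by_cases h1 : A ω <;> by_cases h2 : B ω <;> simp [h1, h2]

lemma Pr_exists {κ : Type} (s : Finset κ) (A : κ → (ι → Ω) → Prop) :
    P.Pr (fun ω => ∃ k ∈ s, A k ω) ≤ ∑ k ∈ s, P.Pr (A k) := by
  classical
  induction s using Finset.induction_on with
  | empty =>
    simp only [notMem_empty, false_and, exists_false, sum_empty]
    unfold Pr
    simp only [if_false]
    rw [P.E_const]
  | insert k s hk ih =>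
    rw [sum_insert hk]
    refine le_trans (P.Pr_mono (B := fun ω => A k ω ∨ ∃ k ∈ s, A k ω) ?_) ?_
    · rintro ω ⟨j, hj, hA⟩
      rcases mem_insert.1 hj with h | h
      · subst h; exact Or.inl hA
      · exact Or.inr ⟨j, h, hA⟩
    · refine (P.Pr_or _ _).trans ?_
      gcongr

lemma exists_of_Pr_lt_one {A : (ι → Ω) → Prop} (h : P.Pr A < 1) : ∃ ω, ¬ A ω := by
  by_contra hn
  push Not at hn
  have : P.Pr A = 1 := by
    classical
    unfold Pr
    simp only [hn, if_true]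
    exact P.E_const 1
  linarith

lemma markov_pow (f : (ι → Ω) → ℝ) (n : ℕ) (l : ℝ) (hl : 0 < l) :
    P.Pr (fun ω => l ≤ |f ω|) ≤ P.E (fun ω => f ω ^ (2 * n)) / l ^ (2 * n) := by
  classical
  rw [le_div_iff₀ (by positivity)]
  unfold Pr
  rw [← P.E_mul_right]
  apply P.E_mono
  intro ω
  split_ifs with h
  · rw [one_mul, pow_mul, pow_mul, ← sq_abs (f ω)]
    gcongr
  · rw [zero_mul, pow_mul]
    positivity

/-- The tail estimate used throughout. -/
theorem tail (F : (ι → Ω) → ℝ) (k : ℕ) (V0 V1 l : ℝ) (hl : 0 < l) (hV0 : 0 ≤ V0) (hV1 : 0 ≤ V1)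
    (good : (ι → Ω) → Prop) (h0 : ∀ ω, good ω → P.V F ω ≤ V0) (h1 : ∀ ω, P.V F ω ≤ V1) :
    P.Pr (fun ω => l ≤ |F ω - P.E F|) ≤
      (8 * 4 ^ k * V0 / l ^ 2) ^ (2 ^ k) +
        (8 * 4 ^ k * V1 / l ^ 2) ^ (2 ^ k) * P.Pr (fun ω => ¬ good ω) := by
  classical
  refine (P.markov_pow _ (2 ^ k) l hl).trans ?_
  have hm := P.moment F k
  have hE : P.E (fun ω => P.V F ω ^ (2 ^ k)) ≤ V0 ^ (2 ^ k) +
      V1 ^ (2 ^ k) * P.Pr (fun ω => ¬ good ω) := by
    unfold Pr
    rw [← P.E_mul_left, ← P.E_const (V0 ^ (2 ^ k)), ← P.E_add]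
    apply P.E_mono
    intro ω
    by_cases hg : good ω
    · simp only [hg, not_true_eq_false, if_false, mul_zero, add_zero]
      have := h0 ω hg
      have := P.V_nonneg F ω
      gcongr
    · simp only [hg, not_false_eq_true, if_true, mul_one]
      have := h1 ω
      have := P.V_nonneg F ω
      have h3 : P.V F ω ^ (2 ^ k) ≤ V1 ^ (2 ^ k) := by gcongr
      have h4 : 0 ≤ V0 ^ (2 ^ k) := by positivity
      linarith
  rw [div_le_iff₀ (by positivity)]
  refine hm.trans ?_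
  have h5 : (8 * 4 ^ k) ^ (2 ^ k) * P.E (fun ω => P.V F ω ^ (2 ^ k)) ≤
      (8 * 4 ^ k) ^ (2 ^ k) * (V0 ^ (2 ^ k) + V1 ^ (2 ^ k) * P.Pr (fun ω => ¬ good ω)) := by
    gcongr
  refine h5.trans (le_of_eq ?_)
  have hl2 : l ^ (2 * 2 ^ k) ≠ 0 := by positivity
  rw [div_pow, div_pow, mul_pow (8 * 4 ^ k) V0, mul_pow (8 * 4 ^ k) V1, ← pow_mul l 2 (2 ^ k)]
  generalize (8 * (4 : ℝ) ^ k) ^ 2 ^ k = A
  field_simp

lemma V_le_sum (F : (ι → Ω) → ℝ) (ω : ι → Ω) (β : ι → ℝ)
    (h : ∀ i a, |F ω - F (Function.update ω i a)| ≤ β i) : P.V F ω ≤ ∑ i, β i ^ 2 := by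
  unfold V
  apply sum_le_sum
  intro i _
  have : ∀ a ∈ (univ : Finset Ω), P.μ i a * (F ω - F (Function.update ω i a)) ^ 2 ≤
      P.μ i a * β i ^ 2 := by
    intro a _
    apply mul_le_mul_of_nonneg_left _ (P.nonneg i a)
    rw [← sq_abs]
    have := h i a
    gcongr
  refine (sum_le_sum this).trans ?_
  rw [← sum_mul, P.sum_one, one_mul]

end Wt

end Pool.Agent.Hhelper79.PSL
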