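import Pool.Agent.Hhelper79.PSL.Prob
import Pool.Agent.Hhelper79.PSL.Four

set_option autoImplicit false
set_option linter.unusedSectionVars false
set_option linter.unusedVariables false
set_option linter.unusedSimpArgs false

namespace Pool.Agent.Hhelper79.PSL

open Finset

/-- sign of a bit -/
def sg (b : Bool) : ℝ := if b then 1 else -1

lemma sg_sq (b : Bool) : sg b ^ 2 = 1 := by cases b <;> simp [sg]
lemma sg_mul_self (b : Bool) : sg b * sg b = 1 := by cases b <;> simp [sg]
lemma abs_sg (b : Bool) : |sg b| = 1 := by cases b <;> simp [sg]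
lemma sg_xor (a b : Bool) : sg (xor a b) = - (sg a * sg b) := by cases a <;> cases b <;> simp [sg]

/-- uniform bits -/
noncomputable def U (ι : Type) : Wt ι Bool where
  μ := fun _ _ => 1 / 2
  nonneg := fun _ _ => by norm_num
  sum_one := fun _ => by simp

section uniform

variable {ι : Type} [Fintype ι] [DecidableEq ι]

lemma U_w (ω : ι → Bool) : (U ι).w ω = (1 / 2) ^ (Fintype.card ι) := by
  unfold Wt.w U
  simp

lemma U_E_flip (χ : ι → Bool) (F : (ι → Bool) → ℝ) :
    (U ι).E (fun ω => F (fun i => xor (ω i) (χ i))) = (U ι).E F := by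
  unfold Wt.E
  simp only [U_w]
  rw [← mul_sum, ← mul_sum]
  congr 1
  apply Finset.sum_nbij' (fun ω : ι → Bool => fun i => xor (ω i) (χ i))
    (fun ω : ι → Bool => fun i => xor (ω i) (χ i))
  · intro _ _; exact mem_univ _
  · intro _ _; exact mem_univ _
  · intro ω _
    ext i
    simp
  · intro ω _
    ext i
    simp
  · intro ω _
    rfl

lemma U_avg (i : ι) (F : (ι → Bool) → ℝ) (ω : ι → Bool) :
    (U ι).avg i F ω = (F (Function.update ω i true) + F (Function.update ω i false)) / 2 := by
  unfold Wt.avg U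
  simp
  ring

lemma U_mgf_linear (a : ι → ℝ) :
    (U ι).E (fun ω => Real.exp (∑ i, a i * sg (ω i))) ≤ Real.exp ((∑ i, a i ^ 2) / 2) := by
  have h1 : (U ι).E (fun ω => Real.exp (∑ i, a i * sg (ω i))) = ∏ i, Real.cosh (a i) := by
    unfold Wt.E Wt.w
    have h2 : ∀ ω : ι → Bool, (∏ i, (U ι).μ i (ω i)) * Real.exp (∑ i, a i * sg (ω i)) =
        ∏ i, ((1 / 2 : ℝ) * Real.exp (a i * sg (ω i))) := by
      intro ω
      rw [Real.exp_sum, ← prod_mul_distrib]
      rfl
    rw [sum_congr rfl (fun ω _ => h2 ω)]
    have h3 := Fintype.prod_sum (κ := fun _ : ι => Bool)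
      (f := fun i b => (1 / 2 : ℝ) * Real.exp (a i * sg b))
    rw [← h3]
    apply prod_congr rfl
    intro i _
    rw [Real.cosh_eq]
    simp [sg]
    ring
  rw [h1, sum_div, Real.exp_sum]
  apply prod_le_prod
  · intro i _
    exact (Real.cosh_pos _).le
  · intro i _
    exact Real.cosh_le_exp_half_sq (a i)

/-- From a moment generating function bound to a tail bound. -/
lemma tail_of_mgf {Ω : Type} [Fintype Ω] (P : Wt ι Ω) (D : (ι → Ω) → ℝ) (m l : ℝ) (hm : 0 < m)
    (hl : 0 ≤ l)
    (h : ∀ t : ℝ, P.E (fun ω => Real.exp (t * D ω)) ≤ Real.exp (t ^ 2 * m / 2)) :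
    P.Pr (fun ω => l ≤ |D ω|) ≤ 2 * Real.exp (- (l ^ 2 / (2 * m))) := by
  classical
  set t := l / m with ht
  have ht0 : 0 ≤ t := by positivity
  have h1 := h t
  have h2 := h (-t)
  have h3 : P.Pr (fun ω => l ≤ |D ω|) * Real.exp (t * l) ≤
      P.E (fun ω => Real.exp (t * D ω)) + P.E (fun ω => Real.exp (-t * D ω)) := by
    unfold Wt.Pr
    rw [← P.E_mul_right, ← P.E_add]
    apply P.E_mono
    intro ω
    split_ifs with hω
    · rw [one_mul]
      rcases le_abs.1 hω with h4 | h4
      · have : Real.exp (t * l) ≤ Real.exp (t * D ω) := by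
          apply Real.exp_le_exp.2
          exact mul_le_mul_of_nonneg_left h4 ht0
        have := Real.exp_pos (-t * D ω)
        linarith
      · have : Real.exp (t * l) ≤ Real.exp (-t * D ω) := by
          apply Real.exp_le_exp.2
          have := mul_le_mul_of_nonneg_left h4 ht0
          linarith
        have := Real.exp_pos (t * D ω)
        linarith
    · rw [zero_mul]
      positivity
  have h4 : (-t) ^ 2 = t ^ 2 := by ring
  rw [h4] at h2
  have h5 : P.Pr (fun ω => l ≤ |D ω|) * Real.exp (t * l) ≤ 2 * Real.exp (t ^ 2 * m / 2) := by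
    linarith
  have h6 : P.Pr (fun ω => l ≤ |D ω|) ≤ 2 * Real.exp (t ^ 2 * m / 2) / Real.exp (t * l) := by
    rw [le_div_iff₀ (Real.exp_pos _)]
    exact h5
  refine h6.trans (le_of_eq ?_)
  rw [mul_div_assoc, ← Real.exp_sub]
  congr 2
  rw [ht]
  field_simp
  ring

lemma fourth_of_mgf {Ω : Type} [Fintype Ω] (P : Wt ι Ω) (D : (ι → Ω) → ℝ) (m : ℝ) (hm : 0 < m)
    (h : ∀ t : ℝ, P.E (fun ω => Real.exp (t * D ω)) ≤ Real.exp (t ^ 2 * m / 2)) :
    P.E (fun ω => D ω ^ 4) ≤ 12 * m ^ 2 := by
  set t := 2 / Real.sqrt m with ht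
  have hsm : 0 < Real.sqrt m := Real.sqrt_pos.2 hm
  have ht0 : 0 < t := by positivity
  have ht2 : t ^ 2 * m = 4 := by
    rw [ht, div_pow, Real.sq_sqrt hm.le]
    field_simp
    norm_num
  have h1 := h t
  have h2 := h (-t)
  have h4 : (-t) ^ 2 = t ^ 2 := by ring
  rw [h4] at h2
  rw [ht2] at h1 h2
  have key : ∀ x : ℝ, x ^ 4 ≤ 12 * (Real.exp x + Real.exp (-x)) := by
    intro x
    have h5 := Real.cosh_eq x
    have h6 : x ^ 4 / 24 ≤ Real.cosh x := by
      have h7 : ∀ y : ℝ, 0 ≤ y → y ^ 4 / 24 ≤ Real.cosh y := by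
        intro y hy
        have h8 := Real.sum_le_exp_of_nonneg hy 5
        have h9 := Real.one_sub_div_pow_le_exp_neg (n := 1) (t := 0) (by norm_num)
        simp [sum_range_succ, Nat.factorial] at h8
        have h10 : 0 < Real.exp (-y) := Real.exp_pos _
        rw [Real.cosh_eq]
        -- use derivative free argument: cosh y = sum of even terms
        have h11 := Real.hasSum_cosh y
        have h12 := sum_le_hasSum (Finset.range 3) (fun i _ => by
          have : 0 ≤ y ^ (2 * i) / ((2 * i).factorial : ℝ) := by positivity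
          exact this) h11
        rw [Real.cosh_eq] at h12
        simp [sum_range_succ, Nat.factorial] at h12
        have : 0 ≤ y ^ 2 := sq_nonneg y
        norm_num at h12 ⊢
        nlinarith
      have := h7 |x| (abs_nonneg x)
      rw [Real.cosh_abs] at this
      have e : |x| ^ 4 = x ^ 4 := by
        rw [show (4 : ℕ) = 2 * 2 by norm_num, pow_mul, sq_abs, ← pow_mul]
      rwa [e] at this
    rw [h5] at h6
    linarith
  have h3 : P.E (fun ω => D ω ^ 4) * t ^ 4 ≤
      12 * (P.E (fun ω => Real.exp (t * D ω)) + P.E (fun ω => Real.exp (-t * D ω))) := by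
    rw [← P.E_mul_right, ← P.E_add, ← P.E_mul_left]
    apply P.E_mono
    intro ω
    have := key (t * D ω)
    rw [mul_pow] at this
    have e : -(t * D ω) = -t * D ω := by ring
    rw [e] at this
    linarith
  have h5 : t ^ 4 * m ^ 2 = 16 := by
    have : t ^ 4 * m ^ 2 = (t ^ 2 * m) ^ 2 := by ring
    rw [this, ht2]; norm_num
  have h6 : Real.exp (4 / 2) ≤ 8 := by
    have := Real.exp_one_lt_d9
    have h7 : Real.exp (4 / 2) = Real.exp 1 ^ 2 := by
      rw [← Real.exp_nat_mul]; norm_num
    rw [h7]
    have := Real.exp_pos 1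
    nlinarith
  have h8 : P.E (fun ω => D ω ^ 4) * t ^ 4 ≤ 192 := by
    refine h3.trans ?_
    have := add_le_add h1 h2
    nlinarith
  have h9 : P.E (fun ω => D ω ^ 4) * 16 ≤ 192 * m ^ 2 := by
    have : P.E (fun ω => D ω ^ 4) * t ^ 4 * m ^ 2 ≤ 192 * m ^ 2 := by
      apply mul_le_mul_of_nonneg_right h8 (by positivity)
    calc P.E (fun ω => D ω ^ 4) * 16 = P.E (fun ω => D ω ^ 4) * (t ^ 4 * m ^ 2) := by rw [h5]
      _ = P.E (fun ω => D ω ^ 4) * t ^ 4 * m ^ 2 := by ring
      _ ≤ _ := this
  linarith

end uniform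

/-! ### Signs on `ZMod N` -/

variable {N : ℕ} [NeZero N]

/-- masked sign vector -/
def xs (T : Finset (ZMod N)) (ω : ZMod N → Bool) (i : ZMod N) : ℝ := if i ∈ T then sg (ω i) else 0

/-- periodic correlation -/
def corr (z : ZMod N → ℝ) (k : ZMod N) : ℝ := ∑ i, z i * z (i + k)

lemma corr_neg (z : ZMod N → ℝ) (k : ZMod N) : corr z (-k) = corr z k := by
  unfold corr
  rw [← Equiv.sum_comp (Equiv.addRight k)]
  apply sum_congr rfl
  intro i _
  simp [mul_comm]

lemma corr_perturb (z : ZMod N → ℝ) (k : ZMod N) (hk : k ≠ 0) (i : ZMod N) (h : ℝ) :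
    corr z k - corr (Function.update z i (z i - h)) k = h * (z (i + k) + z (i - k)) := by
  classical
  unfold corr
  rw [← sum_sub_distrib]
  have h1 : ∀ j, z j * z (j + k) - Function.update z i (z i - h) j *
      Function.update z i (z i - h) (j + k) =
      (if j = i then h * z (i + k) else 0) + (if j = i - k then h * z (i - k) else 0) := by
    intro j
    by_cases hj : j = i
    · subst hj
      have h2 : j + k ≠ j := by simpa using hk
      have h3 : j ≠ j - k := by
        intro h4
        apply hk
        have := sub_eq_self.1 h4.symm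
        exact this
      rw [if_pos rfl, if_neg h3, Function.update_self, Function.update_of_ne h2]
      ring
    · rw [if_neg hj, Function.update_of_ne hj]
      by_cases hjk : j = i - k
      · subst hjk
        rw [if_pos rfl]
        have : i - k + k = i := by ring
        rw [this, Function.update_self]
        ring
      · have h2 : j + k ≠ i := by
          intro h4
          apply hjk
          rw [← h4]; ring
        rw [if_neg hjk, Function.update_of_ne h2]
        ring
  rw [sum_congr rfl (fun j _ => h1 j), sum_add_distrib]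
  simp
  ring

lemma xs_update (T : Finset (ZMod N)) (ω : ZMod N → Bool) (i : ZMod N) (a : Bool) :
    xs T (Function.update ω i a) =
      Function.update (xs T ω) i (xs T ω i - (if i ∈ T then sg (ω i) - sg a else 0)) := by
  classical
  ext j
  by_cases hj : j = i
  · subst hj
    unfold xs
    simp only [Function.update_self]
    split_ifs <;> ring
  · rw [Function.update_of_ne hj]
    unfold xs
    rw [Function.update_of_ne hj]

lemma abs_xs_le (T : Finset (ZMod N)) (ω : ZMod N → Bool) (i : ZMod N) : |xs T ω i| ≤ 1 := by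
  unfold xs
  split_ifs
  · rw [abs_sg]
  · simp

/-! ### Moment generating function of a sum over edges -/

/-- sum of the signs of a set of edges `(i, i+k)` -/
def edg (k : ZMod N) (I : Finset (ZMod N)) (ω : ZMod N → Bool) : ℝ :=
  ∑ i ∈ I, sg (ω i) * sg (ω (i + k))

lemma mgf_edges (k : ZMod N) (u : ℕ) (hu : 0 < u) (l : ℝ) (m : ℕ) :
    ∀ I : Finset (ZMod N), I.card = m → (∀ i ∈ I, (i + k).val = i.val + u) →
    (U (ZMod N)).E (fun ω => Real.exp (l * edg k I ω)) = Real.cosh l ^ m := by
  induction m with
  | zero =>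
    intro I hI _
    rw [card_eq_zero] at hI
    subst hI
    simp [edg, Wt.E_const]
  | succ m ih =>
    intro I hI hval
    have hne : I.Nonempty := by
      rw [← card_pos]; omega
    obtain ⟨i0, hi0, hmax⟩ := exists_max_image I ZMod.val hne
    set J := I.erase i0 with hJ
    have hJcard : J.card = m := by rw [hJ, card_erase_of_mem hi0]; omega
    have hJval : ∀ i ∈ J, (i + k).val = i.val + u := fun i hi => hval i (mem_of_mem_erase hi)
    have hval0 := hval i0 hi0
    set t := i0 + k with ht
    have h1 : ∀ ω (b : Bool), edg k J (Function.update ω t b) = edg k J ω := by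
      intro ω b
      unfold edg
      apply sum_congr rfl
      intro i hi
      have hiI := mem_of_mem_erase hi
      have hle := hmax i hiI
      have hi1 : i ≠ t := by
        intro h
        rw [h, hval0] at hle
        omega
      have hi2 : i + k ≠ t := by
        intro h
        exact (ne_of_mem_erase hi) (add_right_cancel (h.trans ht))
      rw [Function.update_of_ne hi1, Function.update_of_ne hi2]
    have hti0 : i0 ≠ t := by
      intro h
      have : i0.val = i0.val + u := by
        conv_lhs => rw [h]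
        exact hval0
      omega
    have h2 : ∀ ω, edg k I ω = sg (ω i0) * sg (ω t) + edg k J ω := by
      intro ω
      unfold edg
      rw [hJ, ← add_sum_erase I _ hi0]
    have h3 : ∀ ω, (U (ZMod N)).avg t (fun ω => Real.exp (l * edg k I ω)) ω =
        Real.cosh l * Real.exp (l * edg k J ω) := by
      intro ω
      rw [U_avg, h2, h2, h1, h1, Function.update_of_ne hti0, Function.update_of_ne hti0,
        Function.update_self, Function.update_self, mul_add, mul_add, Real.exp_add, Real.exp_add,
        Real.cosh_eq]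
      cases h : ω i0 <;> simp [sg] <;> ring
    rw [← Wt.E_avg _ t]
    have h4 : (U (ZMod N)).avg t (fun ω => Real.exp (l * edg k I ω)) =
        fun ω => Real.cosh l * Real.exp (l * edg k J ω) := by
      ext ω; exact h3 ω
    rw [h4, Wt.E_mul_left, ih J hJcard hJval, pow_succ]
    ring

lemma mgf_edges_le (k : ZMod N) (u : ℕ) (hu : 0 < u) (l : ℝ) (I : Finset (ZMod N)) (m : ℝ)
    (hm : (I.card : ℝ) ≤ m) (hval : ∀ i ∈ I, (i + k).val = i.val + u) :
    (U (ZMod N)).E (fun ω => Real.exp (l * edg k I ω)) ≤ Real.exp (l ^ 2 * m / 2) := by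
  rw [mgf_edges k u hu l I.card I rfl hval]
  calc Real.cosh l ^ I.card ≤ Real.exp (l ^ 2 / 2) ^ I.card := by
        have := Real.cosh_le_exp_half_sq l
        have := (Real.cosh_pos l).le
        gcongr
    _ = Real.exp (I.card * (l ^ 2 / 2)) := by rw [← Real.exp_nat_mul]
    _ ≤ _ := by
        apply Real.exp_le_exp.2
        have : 0 ≤ l ^ 2 / 2 := by positivity
        nlinarith

/-- edges inside `T` -/
def eset (T : Finset (ZMod N)) (k : ZMod N) : Finset (ZMod N) := T.filter (fun i => i + k ∈ T)

lemma corr_xs (T : Finset (ZMod N)) (k : ZMod N) (ω : ZMod N → Bool) :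
    corr (xs T ω) k = edg k (eset T k) ω := by
  classical
  unfold corr edg eset
  rw [sum_filter, ← sum_subset (subset_univ T)]
  · apply sum_congr rfl
    intro i hi
    unfold xs
    rw [if_pos hi]
    split_ifs <;> simp
  · intro i _ hi
    unfold xs
    rw [if_neg hi, zero_mul]

end Pool.Agent.Hhelper79.PSL
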